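import Pool.Agent.H8.DS.TarG

/-!
# Module DNZ of the board ds_modules: the first event below a point
-/

set_option autoImplicit false

namespace DS

open Set

namespace H94DNZ

/-- the points of the line through `w` close to `w`, different from `w`, are pure -/
theorem pure_near (hI : T_ISOL) {C S : Type} [Finite S] (X : Data C S) (hX : X.Surface) (t : ℝ)
    (c : C) (w : ℝ × ℝ) (hw : X.Hopf c → w ≠ 0) :
    ∃ δ > 0, ∀ k, k ≠ 0 → |k| < δ → X.Pure c (fwd t w k) := by
  obtain ⟨δ, hδ, h⟩ := hI C S X hX c w hw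
  have ht : 0 < 1 + |t| := by positivity
  refine ⟨δ / (1 + |t|), div_pos hδ ht, ?_⟩
  intro k hk0 hk
  rw [lt_div_iff₀ ht] at hk
  have hk2 : |k| * |t| < δ := by nlinarith [abs_nonneg k, abs_nonneg t]
  have hk1 : |k| < δ := by nlinarith [abs_nonneg k, abs_nonneg t]
  by_contra hcon
  obtain ⟨s, -, g, -, ξ, -, ξ', -, e1, e2⟩ := h (fwd t w k) (by
      simp only [fwd, add_sub_cancel_left, abs_mul]
      rw [mul_comm]
      exact hk2) (by
      simp only [fwd, add_sub_cancel_left]
      exact hk1) hcon
  apply hk0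
  have h1 := congrArg Prod.snd e1
  have h2 := congrArg Prod.snd e2
  simp only [act, Data.pt, fwd] at h1 h2
  linarith

end H94DNZ

open H94DNZ

theorem pf_DNZ (hI : T_ISOL) : T_DNZ := by
  intro C S _ X hX t c z hz
  by_cases hall : ∀ k > 0, X.Pure c (fwd t z (-k))
  · exact Or.inl hall
  right
  push Not at hall
  set K : Set ℝ := {k | 0 < k ∧ ¬ X.Pure c (fwd t z (-k))} with hK
  have hne : K.Nonempty := by
    obtain ⟨k, hk, h⟩ := hall
    exact ⟨k, hk, h⟩
  have hbdd : BddBelow K := ⟨0, fun k hk => hk.1.le⟩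
  set h := sInf K with hh
  have hpos : 0 < h := by
    obtain ⟨δ, hδ, hp⟩ := pure_near hI X hX t c z hz
    have h1 : δ ≤ h := by
      apply le_csInf hne
      intro k hk
      by_contra hcon
      rw [not_le] at hcon
      apply hk.2
      apply hp
      · exact neg_ne_zero.2 hk.1.ne'
      · rw [abs_neg, abs_of_pos hk.1]
        exact hcon
    linarith
  have hmem : ¬ X.Pure c (fwd t z (-h)) := by
    intro hpure
    obtain ⟨δ, hδ, hp⟩ := pure_near hI X hX t c (fwd t z (-h)) hpure.2
    have h1 : h + δ ≤ h := by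
      apply le_csInf hne
      intro k hk
      by_contra hcon
      rw [not_le] at hcon
      have hkh : h ≤ k := csInf_le hbdd hk
      apply hk.2
      have e : fwd t z (-k) = fwd t (fwd t z (-h)) (h - k) := by
        rw [Data.fwd_add]
        congr 1
        ring
      rw [e]
      by_cases hkh' : h - k = 0
      · rw [hkh', Data.fwd_zero]
        exact hpure
      · apply hp _ hkh'
        rw [abs_sub_comm, abs_of_nonneg (by linarith)]
        linarith
    linarith
  set w := fwd t z (-h) with hw
  have hzw : z = fwd t w h := by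
    rw [hw, Data.fwd_add, neg_add_cancel, Data.fwd_zero]
  have hclear : X.Clear t c w h := by
    intro k hk0 hkh
    have e : fwd t w k = fwd t z (-(h - k)) := by
      rw [hw, Data.fwd_add]
      congr 1
      ring
    rw [e]
    by_contra hcon
    have h1 : h ≤ h - k := csInf_le hbdd ⟨by linarith, hcon⟩
    linarith
  by_cases hon : X.OnSlit c w
  · obtain ⟨s, hs, g, hg, ξ, hξ, hwξ⟩ := hon
    by_cases h0 : ξ = 0
    · right; left
      exact ⟨w, h, hpos, ⟨s, hs, g, hg, Or.inl (by rw [← h0]; exact hwξ)⟩, hclear, hzw⟩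
    · by_cases h1 : ξ = 1
      · right; left
        exact ⟨w, h, hpos, ⟨s, hs, g, hg, Or.inr (by rw [← h1]; exact hwξ)⟩, hclear, hzw⟩
      · left
        refine ⟨s, hs, g, hg, ξ, ⟨lt_of_le_of_ne hξ.1 (Ne.symm h0), lt_of_le_of_ne hξ.2 h1⟩, h,
          hpos, ?_, ?_⟩
        · rw [← hwξ]
          exact hclear
        · rw [← hwξ]
          exact hzw
  · right; right
    have h1 : X.Hopf c ∧ w = 0 := by
      by_contra hcon
      apply hmem
      refine ⟨hon, fun hc h0 => hcon ⟨hc, h0⟩⟩
    refine ⟨h1.1, h, hpos, ?_, ?_⟩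
    · rw [← h1.2]
      exact hclear
    · rw [← h1.2]
      exact hzw

end DS
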