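import Pool.Agent.H8.DS.TarG

/-!
# Module FL of the board ds_modules: lattice points in boxes, in an irrational direction
-/

set_option autoImplicit false

namespace DS

open Set

namespace H94FL

theorem irr_div {α β : ℝ} (h : ∀ m n : ℤ, (m : ℝ) * α + n * β = 0 → m = 0 ∧ n = 0) :
    Irrational (α / β) := by
  have hβ : β ≠ 0 := by
    rintro rfl
    have := (h 0 1 (by simp)).2
    exact one_ne_zero this
  rintro ⟨r, hr⟩
  have h1 : (r : ℝ) * β = α := by rw [hr, div_mul_cancel₀ _ hβ]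
  have h2 : ((r.den : ℤ) : ℝ) * α + ((-r.num : ℤ) : ℝ) * β = 0 := by
    have h3 : (r : ℝ) = (r.num : ℝ) / (r.den : ℝ) := Rat.cast_def r
    have h4 : (r.den : ℝ) ≠ 0 := Nat.cast_ne_zero.2 r.den_nz
    rw [← h1, h3]
    push_cast
    field_simp
    ring
  have h3 := (h _ _ h2).1
  exact r.den_nz (by exact_mod_cast h3)

/-- the values of the form are dense -/
theorem dense_form {α β : ℝ} (h : ∀ m n : ℤ, (m : ℝ) * α + n * β = 0 → m = 0 ∧ n = 0)
    (x y : ℝ) (hxy : x < y) : ∃ m n : ℤ, (m : ℝ) * α + n * β ∈ Ioo x y := by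
  have hd := dense_addSubgroupClosure_pair_iff.2 (irr_div h)
  obtain ⟨z, hz, hzi⟩ := hd.exists_between hxy
  obtain ⟨m, n, hmn⟩ := AddSubgroup.mem_closure_pair.1 hz
  refine ⟨m, n, ?_⟩
  rw [← hmn] at hzi
  simpa using hzi

/-- uniform version, the second coefficient is bounded -/
theorem unif {α β : ℝ} (h : ∀ m n : ℤ, (m : ℝ) * α + n * β = 0 → m = 0 ∧ n = 0)
    {δ : ℝ} (hδ : 0 < δ) :
    ∃ N : ℕ, ∀ x : ℝ, ∃ m n : ℤ, |(n : ℝ)| ≤ N ∧ (m : ℝ) * α + n * β ∈ Ioo x (x + δ) := by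
  have hα : α ≠ 0 := by
    rintro rfl
    have := (h 1 0 (by simp)).1
    exact one_ne_zero this
  have hα0 : 0 < |α| := abs_pos.2 hα
  have hch : ∀ j : ℕ, ∃ m n : ℤ, (m : ℝ) * α + n * β ∈ Ioo ((j : ℝ) * (δ / 2))
      ((j : ℝ) * (δ / 2) + δ / 2) := fun j => dense_form h _ _ (by linarith)
  choose m n hmn using hch
  obtain ⟨J, hJ⟩ := exists_nat_ge (|α| / (δ / 2))
  refine ⟨(Finset.range (J + 1)).sup (fun j => (n j).natAbs), ?_⟩
  intro x
  have hmain : ∀ y : ℝ, 0 ≤ y → y < |α| → ∃ m' n' : ℤ,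
      |(n' : ℝ)| ≤ ((Finset.range (J + 1)).sup (fun j => (n j).natAbs) : ℕ) ∧
      (m' : ℝ) * α + n' * β ∈ Ioo y (y + δ) := by
    intro y hy0 hyα
    set j := ⌈y / (δ / 2)⌉₊ with hj
    have hδ2 : 0 < δ / 2 := by linarith
    have h1 : y ≤ (j : ℝ) * (δ / 2) := by
      rw [← div_le_iff₀ hδ2]
      exact Nat.le_ceil _
    have h2 : (j : ℝ) * (δ / 2) < y + δ / 2 := by
      have h3 : (j : ℝ) < y / (δ / 2) + 1 := Nat.ceil_lt_add_one (div_nonneg hy0 hδ2.le)
      have h4 : (j : ℝ) * (δ / 2) < (y / (δ / 2) + 1) * (δ / 2) :=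
        mul_lt_mul_of_pos_right h3 hδ2
      rwa [add_mul, div_mul_cancel₀ _ hδ2.ne', one_mul] at h4
    have h5 : j ∈ Finset.range (J + 1) := by
      rw [Finset.mem_range, Nat.lt_succ_iff, hj, Nat.ceil_le]
      refine le_trans ?_ hJ
      exact div_le_div_of_nonneg_right hyα.le hδ2.le
    refine ⟨m j, n j, ?_, ?_⟩
    · have h6 := Finset.le_sup (f := fun j => (n j).natAbs) h5
      have h7 : |((n j : ℤ) : ℝ)| = (((n j).natAbs : ℕ) : ℝ) := by
        rw [Nat.cast_natAbs, Int.cast_abs]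
      rw [h7]
      exact_mod_cast h6
    · have h6 := hmn j
      exact ⟨lt_of_le_of_lt h1 h6.1, by linarith [h6.2]⟩
  -- reduction modulo the absolute value of the first coefficient
  set k : ℤ := ⌊x / |α|⌋ with hk
  have hy0 : 0 ≤ x - k * |α| := by
    have h1 : (k : ℝ) ≤ x / |α| := Int.floor_le _
    rw [le_div_iff₀ hα0] at h1
    linarith
  have hy1 : x - k * |α| < |α| := by
    have h1 : x / |α| < k + 1 := Int.lt_floor_add_one _
    rw [div_lt_iff₀ hα0] at h1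
    linarith
  obtain ⟨m', n', h1, h2⟩ := hmain _ hy0 hy1
  rcases abs_cases α with ⟨ha, -⟩ | ⟨ha, -⟩
  · refine ⟨m' + k, n', h1, ?_⟩
    rw [ha] at h2
    push_cast
    constructor
    · nlinarith [h2.1]
    · nlinarith [h2.2]
  · refine ⟨m' - k, n', h1, ?_⟩
    rw [ha] at h2
    push_cast
    constructor
    · nlinarith [h2.1]
    · nlinarith [h2.2]

/-- a multiple of a non-zero number in a half open interval -/
theorem exists_mult {σ : ℝ} (hσ : σ ≠ 0) (w : ℝ) :
    ∃ n : ℤ, w < (n : ℝ) * σ ∧ (n : ℝ) * σ ≤ w + |σ| := by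
  have hs : 0 < |σ| := abs_pos.2 hσ
  set k : ℤ := ⌊w / |σ|⌋ with hk
  have h1 : (k : ℝ) * |σ| ≤ w := by
    have h1 : (k : ℝ) ≤ w / |σ| := Int.floor_le _
    rwa [le_div_iff₀ hs] at h1
  have h2 : w < (k + 1) * |σ| := by
    have h1 : w / |σ| < k + 1 := Int.lt_floor_add_one _
    rwa [div_lt_iff₀ hs] at h1
  rcases abs_cases σ with ⟨ha, -⟩ | ⟨ha, -⟩
  · refine ⟨k + 1, ?_, ?_⟩
    · rw [ha] at h2
      push_cast
      linarith
    · rw [ha] at h1 ⊢
      push_cast
      linarith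
  · refine ⟨-(k + 1), ?_, ?_⟩
    · rw [ha] at h2
      push_cast
      linarith
    · rw [ha] at h1 ⊢
      push_cast
      linarith

end H94FL

open H94FL

theorem pf_FL : T_FL := by
  intro e f t hΔ hirr δ hδ
  set α := e.1 - t * e.2 with hα
  set β := f.1 - t * f.2 with hβ
  have hform : ∀ m n : ℤ, (m * e.1 + n * f.1) - t * (m * e.2 + n * f.2)
      = (m : ℝ) * α + n * β := by
    intro m n
    rw [hα, hβ]
    ring
  have hirr' : ∀ m n : ℤ, (m : ℝ) * α + n * β = 0 → m = 0 ∧ n = 0 := by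
    intro m n h
    apply hirr
    rw [← hform] at h
    linarith
  have hα0 : α ≠ 0 := by
    intro h
    have := (hirr' 1 0 (by simp [h])).1
    exact one_ne_zero this
  have hdet : α * f.2 - β * e.2 ≠ 0 := by
    have h1 : α * f.2 - β * e.2 = e.1 * f.2 - e.2 * f.1 := by
      rw [hα, hβ]
      ring
    rw [h1]
    exact hΔ
  set σ := (α * f.2 - β * e.2) / α with hσ
  have hσ0 : σ ≠ 0 := div_ne_zero hdet hα0
  set γ := e.2 / α with hγ
  -- the height in terms of the form and of the second coefficient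
  have hy : ∀ m n : ℤ, (m : ℝ) * e.2 + n * f.2 = σ * n + γ * ((m : ℝ) * α + n * β) := by
    intro m n
    rw [hσ, hγ]
    field_simp
    ring
  obtain ⟨N, hN⟩ := unif hirr' hδ
  set B := |σ| * N + |γ| * δ with hB
  have hB0 : 0 ≤ B := by positivity
  refine ⟨2 * B + |σ| + 1, by positivity, ?_⟩
  intro u v
  obtain ⟨n₀, hn1, hn2⟩ := exists_mult hσ0 (v + B - γ * u)
  obtain ⟨m, n, h1, h2⟩ := hN (u - n₀ * β)
  refine ⟨m, n₀ + n, ?_, ?_⟩
  · rw [hform]
    push_cast
    constructor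
    · linarith [h2.1]
    · linarith [h2.2]
  · rw [hy]
    push_cast
    set ψ := (m : ℝ) * α + (n₀ + n) * β - u with hψ
    have hψ1 : |ψ| ≤ δ := by
      rw [abs_le]
      constructor
      · linarith [h2.1]
      · linarith [h2.2]
    have e1 : σ * ((n₀ : ℝ) + n) + γ * ((m : ℝ) * α + (n₀ + n) * β)
        = n₀ * σ + γ * u + (σ * n + γ * ψ) := by
      rw [hψ]
      ring
    have e2 : |σ * n + γ * ψ| ≤ B := by
      calc |σ * n + γ * ψ| ≤ |σ * n| + |γ * ψ| := abs_add_le _ _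
        _ = |σ| * |(n : ℝ)| + |γ| * |ψ| := by rw [abs_mul, abs_mul]
        _ ≤ B := by
            rw [hB]
            gcongr
    have e3 := abs_le.1 e2
    rw [e1]
    constructor
    · linarith [e3.1]
    · linarith [e3.2]

end DS
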