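import Pool.Agent.H8.DS.TarG

/-!
# Module ISOL of the board ds_modules: near a point there is only the slit through the point
-/

set_option autoImplicit false

namespace DS

open Set Filter Topology

namespace H94ISOL

theorem continuous_act (g : ℝ × ℝ × ℝ) : Continuous (act g) := by
  unfold act
  fun_prop

theorem continuous_pt {C S : Type} (X : Data C S) (s : S) : Continuous (X.pt s) := by
  unfold Data.pt
  fun_prop

theorem seg_eventually {C S : Type} (X : Data C S) (s : S) (g : ℝ × ℝ × ℝ) (z : ℝ × ℝ) :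
    ∀ᶠ z' in 𝓝 z, z' ∈ (fun ξ => act g (X.pt s ξ)) '' Icc (0 : ℝ) 1 →
      z ∈ (fun ξ => act g (X.pt s ξ)) '' Icc (0 : ℝ) 1 := by
  by_cases hz : z ∈ (fun ξ => act g (X.pt s ξ)) '' Icc (0 : ℝ) 1
  · exact Eventually.of_forall fun _ _ => hz
  · have hc : IsClosed ((fun ξ => act g (X.pt s ξ)) '' Icc (0 : ℝ) 1) :=
      (isCompact_Icc.image ((continuous_act g).comp (continuous_pt X s))).isClosed
    filter_upwards [hc.isOpen_compl.mem_nhds hz] with z' hz' h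
    exact absurd h hz'

theorem exists_rho {C S : Type} (X : Data C S) (c : C) (z : ℝ × ℝ) (hz : X.Hopf c → z ≠ 0) :
    ∃ ρ > 0, X.Hopf c → 2 * ρ ≤ |z.1| ∨ 2 * ρ ≤ |z.2| := by
  by_cases hc : X.Hopf c
  · by_cases h1 : z.1 = 0
    · have h2 : z.2 ≠ 0 := fun h2 => hz hc (Prod.ext h1 h2)
      exact ⟨|z.2| / 2, half_pos (abs_pos.2 h2), fun _ => Or.inr (by linarith)⟩
    · exact ⟨|z.1| / 2, half_pos (abs_pos.2 h1), fun _ => Or.inl (by linarith)⟩
  · exact ⟨1, one_pos, fun h => absurd h hc⟩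

end H94ISOL

open H94ISOL

theorem pf_ISOL (hL : T_LOCF) : T_ISOL := by
  intro C S _ X hX c z hz
  obtain ⟨ρ, hρ, hHρ⟩ := exists_rho X c z hz
  set R := |z.1| + |z.2| + ρ with hR
  set G : S → Set (ℝ × ℝ × ℝ) := fun s =>
    {g | g ∈ X.deck (X.comp s) ∧ ∃ ξ ∈ Icc (0 : ℝ) 1, |(act g (X.pt s ξ)).1| ≤ R ∧
      |(act g (X.pt s ξ)).2| ≤ R ∧ (X.Hopf (X.comp s) →
        ρ ≤ |(act g (X.pt s ξ)).1| ∨ ρ ≤ |(act g (X.pt s ξ)).2|)} with hG
  have hGfin : ∀ s, (G s).Finite := fun s => hL C S X hX s ρ R hρ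
  set P : Set (S × ℝ × ℝ × ℝ) := ⋃ s, ({s} : Set S) ×ˢ G s with hP
  have hPfin : P.Finite := by
    apply Set.finite_iUnion
    intro s
    exact (finite_singleton s).prod (hGfin s)
  have h1 : ∀ᶠ z' in 𝓝 z, ∀ p ∈ P, z' ∈ (fun ξ => act p.2 (X.pt p.1 ξ)) '' Icc (0 : ℝ) 1 →
      z ∈ (fun ξ => act p.2 (X.pt p.1 ξ)) '' Icc (0 : ℝ) 1 := by
    rw [eventually_all_finite hPfin]
    intro p _
    exact seg_eventually X p.1 p.2 z
  obtain ⟨ε, hε, h2⟩ := Metric.eventually_nhds_iff.1 h1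
  refine ⟨min ε ρ, lt_min hε hρ, ?_⟩
  intro z' h3 h4 h5
  have h3ρ : |z'.1 - z.1| < ρ := h3.trans_le (min_le_right _ _)
  have h4ρ : |z'.2 - z.2| < ρ := h4.trans_le (min_le_right _ _)
  have h6 : dist z' z < ε := by
    rw [Prod.dist_eq]
    exact max_lt (h3.trans_le (min_le_left _ _)) (h4.trans_le (min_le_left _ _))
  have h7 := h2 h6
  have e1 := abs_abs_sub_abs_le_abs_sub z'.1 z.1
  have e2 := abs_abs_sub_abs_le_abs_sub z'.2 z.2
  have e3 := abs_le.1 e1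
  have e4 := abs_le.1 e2
  have n1 := abs_nonneg z.1
  have n2 := abs_nonneg z.2
  have hon : X.OnSlit c z' := by
    by_contra hcon
    apply h5
    refine ⟨hcon, fun hc h0 => ?_⟩
    subst h0
    simp only [Prod.fst_zero, Prod.snd_zero, abs_zero] at e3 e4 h3ρ h4ρ
    rcases hHρ hc with h | h <;> linarith [e3.1, e3.2, e4.1, e4.2]
  obtain ⟨s, hs, g, hg, ξ', hξ', hz'⟩ := hon
  have hgG : g ∈ G s := by
    refine ⟨by rw [hs]; exact hg, ξ', hξ', ?_, ?_, ?_⟩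
    · rw [← hz']
      linarith [e3.1, e3.2]
    · rw [← hz']
      linarith [e4.1, e4.2]
    · rw [← hz', hs]
      intro hc
      rcases hHρ hc with h | h
      · left
        linarith [e3.1, e3.2]
      · right
        linarith [e4.1, e4.2]
  have hmem : (s, g) ∈ P := mem_iUnion.2 ⟨s, mk_mem_prod rfl hgG⟩
  obtain ⟨ξ, hξ, hξz⟩ := h7 (s, g) hmem ⟨ξ', hξ', hz'.symm⟩
  exact ⟨s, hs, g, hg, ξ, hξ, ξ', hξ', hξz.symm, hz'⟩

end DS
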