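import Pool.Agent.H8.DS.TarG

/-!
# Module LOCF of the board ds_modules: local finiteness of the lifts of a slit
-/

set_option autoImplicit false

namespace DS

open Set

namespace H94LOCF

/-- finitely many lattice points in a box -/
theorem lattice_fin (e f : ℝ × ℝ) (hΔ : e.1 * f.2 - e.2 * f.1 ≠ 0) (R : ℝ) :
    {k : ℤ × ℤ | |(k.1 : ℝ) * e.1 + k.2 * f.1| ≤ R ∧ |(k.1 : ℝ) * e.2 + k.2 * f.2| ≤ R}.Finite := by
  set Δ := e.1 * f.2 - e.2 * f.1 with hΔd
  have hΔp : 0 < |Δ| := abs_pos.2 hΔ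
  set M := R * (|e.1| + |e.2| + |f.1| + |f.2|) / |Δ| with hM
  have hfin : ((Icc (-⌈M⌉) ⌈M⌉ : Set ℤ) ×ˢ (Icc (-⌈M⌉) ⌈M⌉ : Set ℤ)).Finite :=
    (finite_Icc _ _).prod (finite_Icc _ _)
  apply hfin.subset
  rintro ⟨m, n⟩ ⟨h1, h2⟩
  simp only at h1 h2
  have hR : 0 ≤ R := (abs_nonneg _).trans h1
  have key : ∀ j : ℤ, |(j : ℝ) * Δ| ≤ R * (|e.1| + |e.2| + |f.1| + |f.2|) →
      j ∈ (Icc (-⌈M⌉) ⌈M⌉ : Set ℤ) := by
    intro j hj
    rw [abs_mul, ← le_div_iff₀ hΔp, ← hM] at hj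
    have h3 := abs_le.1 hj
    have h4 : (j : ℝ) ≤ ⌈M⌉ := h3.2.trans (Int.le_ceil M)
    have h5 : -(⌈M⌉ : ℝ) ≤ j := (neg_le_neg (Int.le_ceil M)).trans h3.1
    constructor
    · have h6 : ((-⌈M⌉ : ℤ) : ℝ) ≤ j := by push_cast; exact h5
      exact_mod_cast h6
    · exact_mod_cast h4
  refine ⟨key m ?_, key n ?_⟩
  · have h3 : (m : ℝ) * Δ = ((m : ℝ) * e.1 + n * f.1) * f.2 - ((m : ℝ) * e.2 + n * f.2) * f.1 := by
      rw [hΔd]; ring
    rw [h3]
    calc |((m : ℝ) * e.1 + n * f.1) * f.2 - ((m : ℝ) * e.2 + n * f.2) * f.1|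
        ≤ |((m : ℝ) * e.1 + n * f.1) * f.2| + |((m : ℝ) * e.2 + n * f.2) * f.1| := abs_sub _ _
      _ = |(m : ℝ) * e.1 + n * f.1| * |f.2| + |(m : ℝ) * e.2 + n * f.2| * |f.1| := by
          rw [abs_mul, abs_mul]
      _ ≤ R * |f.2| + R * |f.1| := by gcongr
      _ ≤ R * (|e.1| + |e.2| + |f.1| + |f.2|) := by
          have := mul_nonneg hR (abs_nonneg e.1)
          have := mul_nonneg hR (abs_nonneg e.2)
          nlinarith
  · have h3 : (n : ℝ) * Δ = ((m : ℝ) * e.2 + n * f.2) * e.1 - ((m : ℝ) * e.1 + n * f.1) * e.2 := by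
      rw [hΔd]; ring
    rw [h3]
    calc |((m : ℝ) * e.2 + n * f.2) * e.1 - ((m : ℝ) * e.1 + n * f.1) * e.2|
        ≤ |((m : ℝ) * e.2 + n * f.2) * e.1| + |((m : ℝ) * e.1 + n * f.1) * e.2| := abs_sub _ _
      _ = |(m : ℝ) * e.2 + n * f.2| * |e.1| + |(m : ℝ) * e.1 + n * f.1| * |e.2| := by
          rw [abs_mul, abs_mul]
      _ ≤ R * |e.1| + R * |e.2| := by gcongr
      _ ≤ R * (|e.1| + |e.2| + |f.1| + |f.2|) := by
          have := mul_nonneg hR (abs_nonneg f.1)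
          have := mul_nonneg hR (abs_nonneg f.2)
          nlinarith

/-- finitely many powers in a compact interval of positive numbers -/
theorem zpow_fin {l : ℝ} (hl : 1 < l) (x y : ℝ) (hx : 0 < x) :
    {m : ℤ | x ≤ l ^ m ∧ l ^ m ≤ y}.Finite := by
  obtain ⟨n₁, hn₁⟩ := pow_unbounded_of_one_lt y hl
  obtain ⟨n₂, hn₂⟩ := pow_unbounded_of_one_lt x⁻¹ hl
  have hl0 : 0 < l := by linarith
  apply (finite_Icc (-(n₂ : ℤ)) (n₁ : ℤ)).subset
  rintro m ⟨h1, h2⟩
  constructor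
  · by_contra hcon
    rw [not_le] at hcon
    have h3 : l ^ m < l ^ (-(n₂ : ℤ)) := (zpow_lt_zpow_iff_right₀ hl).2 hcon
    have h4 : l ^ (-(n₂ : ℤ)) < x := by
      rw [zpow_neg, zpow_natCast]
      exact inv_lt_of_inv_lt₀ hx hn₂
    linarith
  · by_contra hcon
    rw [not_le] at hcon
    have h3 : l ^ ((n₁ : ℤ)) < l ^ m := (zpow_lt_zpow_iff_right₀ hl).2 hcon
    rw [zpow_natCast] at h3
    linarith

end H94LOCF

open H94LOCF

theorem pf_LOCF : T_LOCF := by
  intro C S X hX s r R hr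
  have hgood := hX.good (X.comp s)
  have hor := hX.origin s
  have hbd : ∀ ξ ∈ Icc (0 : ℝ) 1, |X.a s + ξ * X.len s| ≤ |X.a s| + |X.len s| := by
    intro ξ hξ
    calc |X.a s + ξ * X.len s| ≤ |X.a s| + |ξ * X.len s| := abs_add_le _ _
      _ = |X.a s| + |ξ| * |X.len s| := by rw [abs_mul]
      _ ≤ |X.a s| + 1 * |X.len s| := by
          gcongr
          rw [abs_le]
          exact ⟨by linarith [hξ.1], hξ.2⟩
      _ = |X.a s| + |X.len s| := by rw [one_mul]
  cases hk : X.kind (X.comp s) with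
  | flat e f =>
    rw [hk] at hgood
    have hfin := lattice_fin e f hgood (R + |X.a s| + |X.len s| + |X.b s|)
    apply (hfin.image (Comp.flat e f).el).subset
    rintro g ⟨hg, ξ, hξ, h1, h2, -⟩
    change g ∈ (X.kind (X.comp s)).deck at hg
    rw [hk] at hg
    obtain ⟨k, rfl⟩ := hg
    refine ⟨k, ⟨?_, ?_⟩, rfl⟩
    · simp only [act, Comp.el, Data.pt] at h1
      have h3 := abs_le.1 h1
      have h4 := abs_le.1 (hbd ξ hξ)
      have h5 := abs_nonneg (X.b s)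
      rw [abs_le]
      constructor <;> linarith [h3.1, h3.2, h4.1, h4.2]
    · simp only [act, Comp.el, Data.pt] at h2
      have h3 := abs_le.1 h2
      have h4 := abs_le.1 (le_refl |X.b s|)
      have h5 := abs_nonneg (X.a s)
      have h6 := abs_nonneg (X.len s)
      rw [abs_le]
      constructor <;> linarith [h3.1, h3.2, h4.1, h4.2]
  | hopf l =>
    rw [hk] at hgood
    simp only [Comp.Good] at hgood
    have hH : X.Hopf (X.comp s) := by
      unfold Data.Hopf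
      rw [hk]
      trivial
    have hcont : ContinuousOn (fun ξ : ℝ => |(X.pt s ξ).1| + |(X.pt s ξ).2|) (Icc (0 : ℝ) 1) := by
      apply Continuous.continuousOn
      simp only [Data.pt]
      fun_prop
    obtain ⟨ξ₀, hξ₀, hmin⟩ := isCompact_Icc.exists_isMinOn
      (nonempty_Icc.2 (zero_le_one : (0 : ℝ) ≤ 1)) hcont
    set d := |(X.pt s ξ₀).1| + |(X.pt s ξ₀).2| with hd
    have hd0 : 0 < d := by
      have h3 := hor hH ξ₀ hξ₀
      by_contra hcon
      apply h3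
      have h4 := abs_nonneg (X.pt s ξ₀).1
      have h5 := abs_nonneg (X.pt s ξ₀).2
      have h6 : |(X.pt s ξ₀).1| = 0 := by linarith
      have h7 : |(X.pt s ξ₀).2| = 0 := by linarith
      exact Prod.ext (abs_eq_zero.1 h6) (abs_eq_zero.1 h7)
    set D := |X.a s| + |X.len s| + |X.b s| + 1 with hD
    have hD0 : 0 < D := by positivity
    have hfin := zpow_fin hgood (r / D) (2 * R / d) (div_pos hr hD0)
    apply (hfin.image (fun m : ℤ => ((l ^ m, 0, 0) : ℝ × ℝ × ℝ))).subset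
    rintro g ⟨hg, ξ, hξ, h1, h2, h3⟩
    change g ∈ (X.kind (X.comp s)).deck at hg
    rw [hk] at hg
    obtain ⟨k, rfl⟩ := hg
    refine ⟨k.1, ⟨?_, ?_⟩, rfl⟩
    · have hl0 : (0 : ℝ) < l ^ k.1 := zpow_pos (by linarith) _
      rw [div_le_iff₀ hD0]
      rcases h3 hH with h4 | h4
      · simp only [act, Comp.el, Data.pt, add_zero] at h4
        rw [abs_mul, abs_of_pos hl0] at h4
        refine h4.trans (mul_le_mul_of_nonneg_left ?_ hl0.le)
        have h5 := hbd ξ hξ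
        have h6 := abs_nonneg (X.b s)
        linarith
      · simp only [act, Comp.el, Data.pt, add_zero] at h4
        rw [abs_mul, abs_of_pos hl0] at h4
        refine h4.trans (mul_le_mul_of_nonneg_left ?_ hl0.le)
        have h5 := abs_nonneg (X.a s)
        have h6 := abs_nonneg (X.len s)
        linarith
    · have hl0 : (0 : ℝ) < l ^ k.1 := zpow_pos (by linarith) _
      rw [le_div_iff₀ hd0]
      have h4 : d ≤ |(X.pt s ξ).1| + |(X.pt s ξ).2| := hmin hξ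
      simp only [act, Comp.el, add_zero] at h1 h2
      rw [abs_mul, abs_of_pos hl0] at h1 h2
      have h5 : l ^ k.1 * d ≤ l ^ k.1 * (|(X.pt s ξ).1| + |(X.pt s ξ).2|) :=
        mul_le_mul_of_nonneg_left h4 hl0.le
      linarith

end DS
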